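import Pool.Agent.Y165.HN.Stm

set_option autoImplicit false

/-!
Project HN (helper165), task RARE (helper813): boundedly many exceptional primes in `(Q, 2 Q]`.
-/

namespace Pool.Agent.Y813.HN

open Finset
open Pool.Agent.Y165.HN

theorem chi_one {q : ℕ} (χ : DirichletCharacter ℂ q) (s : ℕ) (hs : 1 ≤ s)
    (h : ∀ l : ℕ, l.Prime → l ∣ s → χ (l : ZMod q) = 1) : χ (s : ZMod q) = 1 := by
  induction s using Nat.strong_induction_on with
  | _ s ih =>
    rcases Nat.eq_or_lt_of_le hs with h1 | h1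
    · rw [← h1]; simp
    · have hne : s ≠ 1 := by omega
      have hp := Nat.minFac_prime hne
      obtain ⟨t, ht⟩ := Nat.minFac_dvd s
      have ht1 : 1 ≤ t := by
        rcases Nat.eq_zero_or_pos t with h0 | h0
        · rw [h0] at ht; omega
        · exact h0
      have hlt : t < s := by
        have h2 := hp.two_le
        calc t < 2 * t := by omega
          _ ≤ s.minFac * t := Nat.mul_le_mul_right t h2
          _ = s := ht.symm
      have h3 := ih t hlt ht1 fun l hl hd => h l hl (ht ▸ Dvd.dvd.mul_left hd _)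
      have h4 := h s.minFac hp (Nat.minFac_dvd s)
      have h5 : (s : ZMod q) = (s.minFac : ZMod q) * (t : ZMod q) := by
        rw [← Nat.cast_mul, ← ht]
      rw [h5, map_mul, h3, h4, one_mul]

/-- the large sieve step -/
theorem sieve {ι : Type} [Fintype ι] [DecidableEq ι] (g : ι → ℕ → ℂ) (D : ℕ) (S : Finset ℕ)
    (B : ℝ) (hB : 0 ≤ B) (hS : ∀ s ∈ S, s < D) (h1 : ∀ i n, ‖g i n‖ ≤ 1) (h2 : ∀ i, ∀ s ∈ S, g i s = 1)
    (h3 : ∀ i j, i ≠ j → ‖∑ n ∈ range D, g i n * (starRingEnd ℂ) (g j n)‖ ≤ B) :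
    (Fintype.card ι : ℝ) ^ 2 * S.card ≤ Fintype.card ι * D + (Fintype.card ι : ℝ) ^ 2 * B := by
  set F : ℕ → ℂ := fun n => ∑ i, g i n with hF
  have e1 : ((∑ n ∈ range D, ‖F n‖ ^ 2 : ℝ) : ℂ) =
      ∑ i, ∑ j, ∑ n ∈ range D, g i n * (starRingEnd ℂ) (g j n) := by
    push_cast
    have e2 : ∀ n, ((‖F n‖ : ℂ)) ^ 2 = ∑ i, ∑ j, g i n * (starRingEnd ℂ) (g j n) := by
      intro n
      rw [← Complex.mul_conj']
      simp only [hF]
      rw [map_sum, Finset.sum_mul_sum]
    simp_rw [e2]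
    rw [Finset.sum_comm]
    refine Finset.sum_congr rfl fun i _ => ?_
    rw [Finset.sum_comm]
  have e3 : ∑ n ∈ range D, ‖F n‖ ^ 2 ≤ Fintype.card ι * D + (Fintype.card ι : ℝ) ^ 2 * B := by
    have h0 : 0 ≤ ∑ n ∈ range D, ‖F n‖ ^ 2 := Finset.sum_nonneg fun _ _ => by positivity
    have e4 : ∑ n ∈ range D, ‖F n‖ ^ 2 = ‖((∑ n ∈ range D, ‖F n‖ ^ 2 : ℝ) : ℂ)‖ := by
      rw [Complex.norm_real, Real.norm_of_nonneg h0]
    rw [e4, e1]
    have e5 : ∀ i j : ι, ‖∑ n ∈ range D, g i n * (starRingEnd ℂ) (g j n)‖ ≤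
        (if i = j then (D : ℝ) else 0) + B := by
      intro i j
      by_cases hij : i = j
      · rw [if_pos hij]
        have : ‖∑ n ∈ range D, g i n * (starRingEnd ℂ) (g j n)‖ ≤ D := by
          refine (norm_sum_le _ _).trans ?_
          calc ∑ n ∈ range D, ‖g i n * (starRingEnd ℂ) (g j n)‖ ≤ ∑ n ∈ range D, (1 : ℝ) := by
                refine Finset.sum_le_sum fun n _ => ?_
                rw [norm_mul, RCLike.norm_conj]
                exact mul_le_one₀ (h1 i n) (norm_nonneg _) (h1 j n)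
            _ = D := by simp
        linarith
      · rw [if_neg hij, zero_add]
        exact h3 i j hij
    refine (norm_sum_le _ _).trans ?_
    refine (Finset.sum_le_sum fun i _ => norm_sum_le _ _).trans ?_
    refine (Finset.sum_le_sum fun i _ => Finset.sum_le_sum fun j _ => e5 i j).trans (le_of_eq ?_)
    simp only [Finset.sum_add_distrib, Finset.sum_ite_eq, Finset.mem_univ, if_true,
      Finset.sum_const, Finset.card_univ, nsmul_eq_mul]
    ring
  have e6 : (Fintype.card ι : ℝ) ^ 2 * S.card ≤ ∑ n ∈ range D, ‖F n‖ ^ 2 := by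
    have e7 : ∑ n ∈ S, ‖F n‖ ^ 2 ≤ ∑ n ∈ range D, ‖F n‖ ^ 2 :=
      Finset.sum_le_sum_of_subset_of_nonneg (fun s hs => mem_range.2 (hS s hs))
        fun _ _ _ => by positivity
    refine le_trans (le_of_eq ?_) e7
    have e8 : ∀ s ∈ S, ‖F s‖ ^ 2 = (Fintype.card ι : ℝ) ^ 2 := by
      intro s hs
      have : F s = (Fintype.card ι : ℂ) := by
        simp only [hF]
        rw [Finset.sum_congr rfl fun i _ => h2 i s hs]
        simp
      rw [this, Complex.norm_natCast]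
    rw [Finset.sum_congr rfl e8, Finset.sum_const, nsmul_eq_mul]
    ring
  exact e6.trans e3

theorem t_RARE (hS : SMO) (hP : PER) : RARE := by
  classical
  intro θ hθ
  set κ := min (θ / 3) 1 with hκ
  have hκ0 : 0 < κ := lt_min (by positivity) one_pos
  have hκ1 : κ ≤ 1 := min_le_right _ _
  have hκ3 : 3 * κ ≤ θ := by
    have := min_le_left (θ / 3) 1
    rw [← hκ] at this
    linarith
  obtain ⟨c, hc, D0, hD⟩ := hS κ hκ0 hκ1
  set Q0 := D0 + ⌈8 / c⌉₊ + 1 with hQ0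
  refine ⟨Q0 + ⌈2 / c⌉₊, fun Q E hE => ?_⟩
  rcases Nat.lt_or_ge Q Q0 with hQ | hQ
  · have h1 : E ⊆ Finset.Ioc Q (2 * Q) := fun q hq => by
      rw [Finset.mem_Ioc]
      exact ⟨(hE q hq).2.1, (hE q hq).2.2⟩
    have h2 := Finset.card_le_card h1
    rw [Nat.card_Ioc] at h2
    omega
  · have hQ1 : 1 ≤ Q := by omega
    have hQr : (1 : ℝ) ≤ Q := by exact_mod_cast hQ1
    have hD0 : D0 ≤ Q ^ 3 := by
      calc D0 ≤ Q := by omega
        _ ≤ Q ^ 3 := Nat.le_self_pow (by norm_num) Q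
    obtain ⟨S, hS1, hS2⟩ := hD (Q ^ 3) hD0
    have hc8 : 8 ≤ c * Q := by
      have h1 : 8 / c ≤ (⌈8 / c⌉₊ : ℝ) := Nat.le_ceil _
      have h2 : (⌈8 / c⌉₊ : ℝ) ≤ Q := by exact_mod_cast (by omega : ⌈8 / c⌉₊ ≤ Q)
      have h3 : 8 / c ≤ Q := h1.trans h2
      rw [div_le_iff₀ hc] at h3
      linarith
    have hχ : ∀ q : E, ∃ χ : DirichletCharacter ℂ q, χ ≠ 1 ∧
        ∀ l : ℕ, l.Prime → (l : ℝ) ≤ ((q : ℕ) : ℝ) ^ θ → χ (l : ZMod q) = 1 :=
      fun q => (hE q q.2).1.2
    choose χ hχ1 hχ2 using hχ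
    have hmain := sieve (ι := E) (fun q n => χ q (n : ZMod q)) (Q ^ 3) S ((2 * (Q : ℝ)) ^ 2)
      (by positivity) (fun s hs => (hS1 s hs).2.1)
      (fun q n => DirichletCharacter.norm_le_one (χ q) _)
      (fun q s hs => by
        refine chi_one (χ q) s (hS1 s hs).1 fun l hl hd => hχ2 q l hl ?_
        refine ((hS1 s hs).2.2 l hl hd).trans ?_
        have h1 : ((Q ^ 3 : ℕ) : ℝ) ^ κ = (Q : ℝ) ^ (3 * κ) := by
          push_cast
          rw [Real.rpow_mul (by positivity)]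
          congr 1
          norm_cast
        rw [h1]
        calc (Q : ℝ) ^ (3 * κ) ≤ (Q : ℝ) ^ θ := Real.rpow_le_rpow_of_exponent_le hQr hκ3
          _ ≤ ((q : ℕ) : ℝ) ^ θ := Real.rpow_le_rpow (by positivity)
              (by exact_mod_cast (hE q q.2).2.1.le) hθ.le)
      (fun q q' hne => by
        have hne' : (q : ℕ) ≠ (q' : ℕ) := fun h => hne (Subtype.ext h)
        refine (hP q q' (hE q q.2).1.1 (hE q' q'.2).1.1 hne' (χ q) (χ q') (hχ1 q) (Q ^ 3)).trans ?_
        have h1 : ((q : ℕ) : ℝ) ≤ 2 * Q := by exact_mod_cast (hE q q.2).2.2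
        have h2 : ((q' : ℕ) : ℝ) ≤ 2 * Q := by exact_mod_cast (hE q' q'.2).2.2
        rw [sq]
        exact mul_le_mul h1 h2 (by positivity) (by positivity))
    rw [Fintype.card_coe] at hmain
    set m : ℝ := (E.card : ℝ) with hm
    have hm0 : 0 ≤ m := by positivity
    have h5 : m ≤ 2 / c := by
      rcases eq_or_lt_of_le hm0 with h0 | h0
      · rw [← h0]; positivity
      · have h6 : m ^ 2 * (c * ((Q ^ 3 : ℕ) : ℝ)) ≤ m ^ 2 * S.card := by gcongr
        have h7 := h6.trans hmain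
        push_cast at h7
        have h8 : (m * Q ^ 2) * (m * c * Q) ≤ (m * Q ^ 2) * (Q + 4 * m) := by nlinarith
        have h9 : 0 < m * (Q : ℝ) ^ 2 := by positivity
        have h10 : m * c * Q ≤ Q + 4 * m := le_of_mul_le_mul_left h8 h9
        have h11 : m * (c * Q / 2) ≤ Q := by nlinarith
        rw [le_div_iff₀ hc]
        have h12 : (m * c) * Q ≤ 2 * Q := by nlinarith
        have h13 : 0 < (Q : ℝ) := by linarith
        exact le_of_mul_le_mul_right h12 h13
    have h14 : m ≤ (⌈2 / c⌉₊ : ℝ) := h5.trans (Nat.le_ceil _)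
    have h15 : E.card ≤ ⌈2 / c⌉₊ := by
      rw [hm] at h14
      exact_mod_cast h14
    omega

end Pool.Agent.Y813.HN
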